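import Mathlib
import Pool.Agent.Helper60.M.Gp
import Pool.Agent.Helper88.M.Engine
import Pool.Agent.Helper94.M.Tensor

/-!
# Theorem M, block J: `nice3`

No line through `x j` is in the fibre, for general coefficients.
-/

set_option autoImplicit false

namespace Pool.Agent.Helper91.M

open MvPolynomial Pool.Agent.Helper47.M Pool.Agent.Helper60.M Pool.Agent

variable {k l : ℕ} {N : Fin k → ℕ} {d : Fin l → Fin k → ℕ}

section scale

variable {e : Fin k → ℕ} {S : Type*} [CommRing S]

theorem slot_prod (x : Pt N S) (j : Fin k) (t : Fin (e j)) (b : Fin (N j + 1) → S) (m : Tn N e) :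
    ∏ r, ∏ t', slot e x j t b r t' (m r t') = b (m j t) *
      ((∏ t' ∈ Finset.univ.erase t, x j (m j t')) *
        ∏ r ∈ Finset.univ.erase j, ∏ t', x r (m r t')) := by
  rw [← Finset.mul_prod_erase Finset.univ _ (Finset.mem_univ j),
    ← Finset.mul_prod_erase Finset.univ _ (Finset.mem_univ t), mul_assoc]
  congr 1
  · simp [slot]
  · congr 1
    · refine Finset.prod_congr rfl fun t' ht => ?_
      simp only [slot, Function.update_self]
      rw [Function.update_of_ne (Finset.ne_of_mem_erase ht)]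
    · refine Finset.prod_congr rfl fun r hr => ?_
      simp only [slot]
      rw [Function.update_of_ne (Finset.ne_of_mem_erase hr)]

theorem dv_smul (a : Tn N e → S) (x : Pt N S) (j : Fin k) (u : S) (b : Fin (N j + 1) → S) :
    dv a x j (fun i => u * b i) = u * dv a x j b := by
  unfold dv tv
  rw [Finset.mul_sum]
  refine Finset.sum_congr rfl fun t _ => ?_
  rw [Finset.mul_sum]
  refine Finset.sum_congr rfl fun m _ => ?_
  rw [slot_prod, slot_prod]
  ring

theorem fv_scale (a : Tn N e → S) (x : Pt N S) (j : Fin k) (u : S) :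
    fv a (Function.update x j fun i => u * x j i) = u ^ e j * fv a x := by
  unfold fv tv
  rw [Finset.mul_sum]
  refine Finset.sum_congr rfl fun m _ => ?_
  rw [← Finset.mul_prod_erase Finset.univ _ (Finset.mem_univ j),
    ← Finset.mul_prod_erase Finset.univ (fun r => ∏ t, x r (m r t)) (Finset.mem_univ j)]
  have h1 : ∏ t, (Function.update x j fun i => u * x j i) j (m j t) =
      u ^ e j * ∏ t, x j (m j t) := by
    rw [Function.update_self, Finset.prod_mul_distrib, Finset.prod_const, Finset.card_univ,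
      Fintype.card_fin]
  have h2 : ∏ r ∈ Finset.univ.erase j, ∏ t, (Function.update x j fun i => u * x j i) r (m r t) =
      ∏ r ∈ Finset.univ.erase j, ∏ t, x r (m r t) := by
    refine Finset.prod_congr rfl fun r hr => ?_
    rw [Function.update_of_ne (Finset.ne_of_mem_erase hr)]
  rw [h1, h2]
  ring

end scale

/-- A linear functional with coefficients `R`. -/
theorem lin_of_row {ι S : Type} [Fintype ι] [DecidableEq ι] [CommRing S] (L : (ι → S) → S)
    (R : ι → S) (h : ∀ c, L c = ∑ m, R m * c m) (c : ι → S) :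
    L c = ∑ e, c e * L (Pi.single e 1) := by
  have h1 : ∀ e, L (Pi.single e 1) = R e := by
    intro e
    rw [h, Finset.sum_eq_single e]
    · rw [Pi.single_eq_same, mul_one]
    · intro m _ hm
      rw [Pi.single_eq_of_ne hm, mul_zero]
    · intro h2
      exact absurd (Finset.mem_univ e) h2
  rw [h]
  exact Finset.sum_congr rfl fun e _ => by rw [h1, mul_comm]

/-- The parameters: the coordinates of `x r` except `e0`, those of `b` except `0`, `e1`. -/
abbrev Pr (N : Fin k → ℕ) (r j : Fin k) (e0 : Fin (N r + 1)) (e1 : Fin (N j + 1)) :=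
  {i : Fin (N r + 1) // i ≠ e0} ⊕ {i : Fin (N j + 1) // i ≠ 0 ∧ i ≠ e1}

/-- The coordinates in the factor `r`. -/
def yv {r j : Fin k} {e0 : Fin (N r + 1)} {e1 : Fin (N j + 1)} {S : Type} [CommRing S]
    (v : Pr N r j e0 e1 → S) : Fin (N r + 1) → S :=
  ins (fun i => i ≠ e0) (fun _ => 1) fun i => v (Sum.inl i)

/-- The direction. -/
def bv {r j : Fin k} {e0 : Fin (N r + 1)} {e1 : Fin (N j + 1)} {S : Type} [CommRing S]
    (v : Pr N r j e0 e1 → S) : Fin (N j + 1) → S :=
  ins (fun i => i ≠ 0 ∧ i ≠ e1) (fun i => if i = e1 then 1 else 0) fun i => v (Sum.inr i)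

/-- The equations. -/
def Lf (d : Fin l → Fin k → ℕ) (r j : Fin k) (i0 : Fin l) (e0 : Fin (N r + 1))
    (e1 : Fin (N j + 1)) (S : Type) [CommRing S] (c : Tx N d → S)
    (w : {q : Vr N // q.1 ≠ r} → S) (v : Pr N r j e0 e1 → S) :
    Fin l ⊕ (Fin l ⊕ Unit) → S
  | .inl i => Fm c (gp r w (yv v)) i
  | .inr (.inl i) => dF c (gp r w (yv v)) j (bv v) i
  | .inr (.inr _) => Fm c (Function.update (gp r w (yv v)) j (bv v)) i0

variable {r j : Fin k} {e0 : Fin (N r + 1)} {e1 : Fin (N j + 1)}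

theorem yv_map {S S' : Type} [CommRing S] [CommRing S'] (f : S →+* S')
    (v : Pr N r j e0 e1 → S) (i : Fin (N r + 1)) : f (yv v i) = yv (fun i => f (v i)) i :=
  ins_map _ _ f _ i

theorem bv_map {S S' : Type} [CommRing S] [CommRing S'] (f : S →+* S')
    (v : Pr N r j e0 e1 → S) (i : Fin (N j + 1)) : f (bv v i) = bv (fun i => f (v i)) i :=
  ins_map _ _ f _ i

theorem upd_map {S S' : Type} [CommRing S] [CommRing S'] (f : S →+* S') (x : Pt N S)
    (j : Fin k) (b : Fin (N j + 1) → S) :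
    (fun r i => f (Function.update x j b r i)) =
      Function.update (fun r i => f (x r i)) j fun i => f (b i) := by
  funext q
  by_cases h : q = j
  · subst h
    rw [Function.update_self, Function.update_self]
  · rw [Function.update_of_ne h, Function.update_of_ne h]

theorem Lf_nat (i0 : Fin l) (S S' : Type) [CommRing S] [CommRing S'] (f : S →+* S')
    (c : Tx N d → S) (w : {q : Vr N // q.1 ≠ r} → S) (v : Pr N r j e0 e1 → S)
    (u : Fin l ⊕ (Fin l ⊕ Unit)) :
    f (Lf d r j i0 e0 e1 S c w v u) =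
      Lf d r j i0 e0 e1 S' (fun i => f (c i)) (fun i => f (w i)) (fun i => f (v i)) u := by
  have hy : (fun i => f (yv v i)) = yv (fun i => f (v i)) := funext (yv_map f v)
  have hb : (fun i => f (bv v i)) = bv (fun i => f (v i)) := funext (bv_map f v)
  have hx : (fun q i => f (gp r w (yv v) q i)) = gp r (fun q => f (w q)) (yv fun i => f (v i)) := by
    rw [gp_map, hy]
  rcases u with i | i | i
  · simp only [Lf]
    rw [Fm_map, hx]
  · simp only [Lf]
    rw [dF_map, hx, hb]
  · simp only [Lf]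
    rw [Fm_map, upd_map, hx, hb]

theorem Lf_lin (i0 : Fin l) (S : Type) [CommRing S]
    (c : Tx N d → S) (w : {q : Vr N // q.1 ≠ r} → S) (v : Pr N r j e0 e1 → S)
    (u : Fin l ⊕ (Fin l ⊕ Unit)) :
    Lf d r j i0 e0 e1 S c w v u = ∑ e, c e * Lf d r j i0 e0 e1 S (Pi.single e 1) w v u := by
  rcases u with i | i | i
  · exact lin_of_row (fun c => Fm c (gp r w (yv v)) i) _ (fun c => (row_Fm c _ i).symm) c
  · exact lin_of_row (fun c => dF c (gp r w (yv v)) j (bv v) i)
      (row (Pi.single i 1) fun _ => dc (gp r w (yv v)) j (bv v)) (fun c => by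
        rw [row_dF, Finset.sum_eq_single i]
        · rw [Pi.single_eq_same, one_mul]
        · intro m _ hm
          rw [Pi.single_eq_of_ne hm, zero_mul]
        · intro h
          exact absurd (Finset.mem_univ i) h) c
  · exact lin_of_row (fun c => Fm c (Function.update (gp r w (yv v)) j (bv v)) i0) _
      (fun c => (row_Fm c _ i0).symm) c

theorem yv_ne_zero {S : Type} [CommRing S] [Nontrivial S] (v : Pr N r j e0 e1 → S) :
    yv v ≠ 0 := by
  intro h
  have := congrFun h e0
  rw [yv, ins_neg _ _ _ _ (by simp)] at this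
  simp at this

theorem bv_zero (h1 : e1 ≠ 0) {S : Type} [CommRing S] (v : Pr N r j e0 e1 → S) :
    bv v 0 = 0 := by
  rw [bv, ins_neg _ _ _ _ (by simp)]
  simp [h1.symm]

theorem bv_one {S : Type} [CommRing S] (v : Pr N r j e0 e1 → S) : bv v e1 = 1 := by
  rw [bv, ins_neg _ _ _ _ (by simp)]
  simp

theorem Lf_surj (h : Ty N d) (hrj : j ≠ r) (i0 : Fin l) (hi : d i0 j = 2) (h1 : e1 ≠ 0)
    (Ω : Type) [Field Ω] (w : {q : Vr N // q.1 ≠ r} → Ω) (v : Pr N r j e0 e1 → Ω)
    (t : Fin l ⊕ (Fin l ⊕ Unit) → Ω) :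
    ∃ c' : Tx N d → Ω, ∀ u, Lf d r j i0 e0 e1 Ω c' w v u = t u := by
  classical
  set x := gp r w (yv v) with hx
  have hx0 : ∀ q, x q ≠ 0 := fun q => gp_ne_zero w (yv v) (yv_ne_zero v) q
  have hxj : x j 0 = 1 := by
    rw [hx, gp_ne _ _ _ hrj]
    simp
  have hb : ∀ u w : Ω, (∀ i, u * x j i + w * bv v i = 0) → u = 0 ∧ w = 0 := by
    intro u w h2
    have h3 := h2 0
    rw [hxj, bv_zero h1] at h3
    have hu : u = 0 := by simpa using h3
    refine ⟨hu, ?_⟩
    have h4 := h2 e1
    rw [hu, bv_one] at h4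
    simpa using h4
  have key : ∀ i : Fin l, ∃ a : Tn N (d i) → Ω, fv a x = t (Sum.inl i) ∧
      dv a x j (bv v) = t (Sum.inr (Sum.inl i)) ∧
      (i = i0 → fv a (Function.update x j (bv v)) = t (Sum.inr (Sum.inr ()))) := by
    intro i
    by_cases hii : i = i0
    · subst hii
      obtain ⟨a, h2, h3, h4⟩ := Helper94.M.exists_tensor2 (h.pos i) x hx0 j hi (bv v) hb
        (t (Sum.inl i)) (t (Sum.inr (Sum.inl i))) (t (Sum.inr (Sum.inr ())))
      exact ⟨a, h2, h3, fun _ => h4⟩
    · obtain ⟨a, h2, h3⟩ := Helper94.M.exists_tensor1 (h.pos i) x hx0 j (bv v) hb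
        (t (Sum.inl i)) (t (Sum.inr (Sum.inl i)))
      exact ⟨a, h2, h3, fun h4 => absurd h4 hii⟩
  choose a ha1 ha2 ha3 using key
  refine ⟨fun m => a m.1 m.2, fun u => ?_⟩
  rcases u with i | i | i
  · exact ha1 i
  · exact ha2 i
  · exact ha3 i0 rfl

theorem card_lt (hr : N r = l + 1) (hj : N j = l) (h1 : e1 ≠ 0) :
    Fintype.card (Pr N r j e0 e1) < Fintype.card (Fin l ⊕ (Fin l ⊕ Unit)) := by
  have c1 : Fintype.card {i : Fin (N r + 1) // i ≠ e0} = l + 1 := by
    rw [Fintype.card_subtype_compl]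
    simp [hr]
  have c2 : Fintype.card {i : Fin (N j + 1) // i ≠ 0 ∧ i ≠ e1} = l - 1 := by
    have : Fintype.card {i : Fin (N j + 1) // i ≠ 0 ∧ i ≠ e1} =
        Fintype.card {i : Fin (N j + 1) // ¬ (i = 0 ∨ i = e1)} :=
      Fintype.card_congr (Equiv.subtypeEquivRight fun i => by tauto)
    rw [this, Fintype.card_subtype_compl, Fintype.card_subtype, Fintype.card_fin]
    have h2 : (Finset.univ.filter fun i : Fin (N j + 1) => i = 0 ∨ i = e1) = {0, e1} := by
      ext i
      simp
    rw [h2, Finset.card_pair h1.symm, hj]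
    omega
  have hl : 1 ≤ l := by
    by_contra hl
    have : N j = 0 := by omega
    exact h1 (by
      apply Fin.ext
      have := e1.2
      simp
      omega)
  rw [Fintype.card_sum, Fintype.card_sum, Fintype.card_sum, c1, c2]
  simp
  omega

theorem yv_eq {S : Type} [CommRing S] (y : Fin (N r + 1) → S) (b : Fin (N j + 1) → S)
    (hy : y e0 = 1) :
    yv (e0 := e0) (e1 := e1) (Sum.elim (fun i => y i) (fun i => b i)) = y := by
  refine ins_eq _ _ y fun i hi => ?_
  have : i = e0 := by simpa using hi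
  rw [this, hy]
  simp

theorem bv_eq (h1 : e1 ≠ 0) {S : Type} [CommRing S] (y : Fin (N r + 1) → S)
    (b : Fin (N j + 1) → S) (hb : b 0 = 0) (hb1 : b e1 = 1) :
    bv (e0 := e0) (e1 := e1) (Sum.elim (fun i => y i) (fun i => b i)) = b := by
  refine ins_eq _ _ b fun i hi => ?_
  by_cases h0 : i = 0
  · rw [h0, hb, if_neg h1.symm]
    simp
  · have : i = e1 := by
      by_contra h2
      exact hi ⟨h0, h2⟩
    rw [this, hb1, if_pos rfl]
    simp

theorem nice3 (h : Ty N d) (r : Fin k) (hr : N r = l + 1) (j : Fin k) (hj : N j = l)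
    (i0 : Fin l) (hi : d i0 j = 2) :
    ∃ Δ : MvPolynomial (Tx N d) ℚ, Δ ≠ 0 ∧ ∀ (K : Type) [Field K] [CharZero K] (c : Tx N d → K),
      aeval c Δ ≠ 0 → ∀ (Ω : Type) [Field Ω] [Algebra K Ω] (x : Pt N Ω), GenPt K c r x →
        ∀ b : Fin (N j + 1) → Ω, b 0 = 0 →
          (∀ i, dF (fun e => algebraMap K Ω (c e)) x j b i = 0) →
          Fm (fun e => algebraMap K Ω (c e)) (Function.update x j b) i0 = 0 → b = 0 := by
  classical
  have hrj : j ≠ r := by
    rintro rfl
    omega
  have key : ∀ (e0 : Fin (N r + 1)) (e1 : Fin (N j + 1)), ∃ D : MvPolynomial (Tx N d) ℚ, D ≠ 0 ∧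
      (e1 ≠ 0 → ∀ (K : Type) [Field K] [CharZero K] (c : Tx N d → K),
      aeval c D ≠ 0 → ∀ (Ω : Type) [Field Ω] [Algebra K Ω] (w : {q : Vr N // q.1 ≠ r} → Ω)
        (v : Pr N r j e0 e1 → Ω), AlgebraicIndependent K w →
        ¬ ∀ u, Lf d r j i0 e0 e1 Ω (fun i => algebraMap K Ω (c i)) w v u = 0) := by
    intro e0 e1
    by_cases h1 : e1 = 0
    · exact ⟨1, one_ne_zero, fun h2 => absurd h1 h2⟩
    · obtain ⟨D, h2, h3⟩ := Helper88.M.engine (Lf d r j i0 e0 e1) (Lf_nat i0) (Lf_lin i0)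
        (fun Ω _ _ w v t => Lf_surj h hrj i0 hi h1 Ω w v t) (card_lt hr hj h1)
      exact ⟨D, h2, fun _ => h3⟩
  choose D hD hD' using key
  refine ⟨∏ e0, ∏ e1, D e0 e1, Finset.prod_ne_zero_iff.2 fun e0 _ =>
    Finset.prod_ne_zero_iff.2 fun e1 _ => hD e0 e1, ?_⟩
  intro K _ _ c hc Ω _ _ x hx b hb0 hd hf
  rw [map_prod] at hc
  have hc' : ∀ e0 e1, aeval c (D e0 e1) ≠ 0 := by
    intro e0 e1
    have h1 := Finset.prod_ne_zero_iff.1 hc e0 (Finset.mem_univ _)
    rw [map_prod] at h1
    exact Finset.prod_ne_zero_iff.1 h1 e1 (Finset.mem_univ _)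
  by_contra hb
  obtain ⟨e1, he1⟩ : ∃ e1, b e1 ≠ 0 := by
    by_contra h1
    push Not at h1
    exact hb (funext h1)
  have h1 : e1 ≠ 0 := by
    rintro rfl
    exact he1 hb0
  obtain ⟨e0, he0⟩ := hx.norm
  have hxx : gp r (fun q => x q.1.1 q.1.2.succ) (x r) = x := gp_eq x hx.one
  set b' : Fin (N j + 1) → Ω := fun i => (b e1)⁻¹ * b i with hb'
  refine hD' e0 e1 h1 K c (hc' e0 e1) Ω (fun q => x q.1.1 q.1.2.succ)
    (Sum.elim (fun i => x r i) (fun i => b' i)) hx.ind fun u => ?_
  have hy : yv (e0 := e0) (e1 := e1) (Sum.elim (fun i => x r i) (fun i => b' i)) = x r :=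
    yv_eq (x r) b' he0
  have hbv : bv (e0 := e0) (e1 := e1) (Sum.elim (fun i => x r i) (fun i => b' i)) = b' :=
    bv_eq h1 (x r) b' (by simp [hb', hb0]) (by simp [hb', he1])
  rcases u with i | i | i
  · simp only [Lf]
    rw [hy, hxx]
    exact hx.eq i
  · simp only [Lf]
    rw [hy, hxx, hbv]
    have := dv_smul (fun m => algebraMap K Ω (c ⟨i, m⟩)) x j (b e1)⁻¹ b
    have h2 := hd i
    unfold dF at h2 ⊢
    rw [this, h2, mul_zero]
  · simp only [Lf]
    rw [hy, hxx, hbv]
    have h3 := fv_scale (fun m => algebraMap K Ω (c ⟨i0, m⟩)) (Function.update x j b) j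
      (b e1)⁻¹
    rw [Function.update_self, Function.update_idem] at h3
    unfold Fm at hf ⊢
    rw [hb', h3, hf, mul_zero]

end Pool.Agent.Helper91.M
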